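import Pool.Agent.helper58.FI4E.Spec

set_option autoImplicit false

namespace Pool.Agent.FI4E

open Pool.Agent.helper58.DC Pool.Agent.DI Pool.Agent.GR Pool.Agent.OB Pool.Agent.DR Pool.Agent.FI Pool.Agent.FI3 Pool.Agent.FI4 Pool.Agent.FI4I

theorem OMB_key {K Γ : Type} [Group K] [Group Γ] (i : K →* Γ) (hi : Function.Injective i)
    (P : Subgroup K) (h : K) : i h ∈ P.map i ↔ h ∈ P := by
  constructor
  · rintro ⟨h', h1, h2⟩
    rwa [← hi h2]
  · exact fun h1 => ⟨h, h1, rfl⟩

theorem OMB_nz {K Γ : Type} [Group K] [Group Γ] (i : K →* Γ) (hi : Function.Injective i)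
    (P : Subgroup K) (k : K) : i k ∈ nz (P.map i) ↔ k ∈ nz P := by
  have key := OMB_key i hi P
  constructor
  · intro h
    rw [Subgroup.mem_normalizer_iff] at h ⊢
    intro x
    have h1 := h (i x)
    rw [← map_mul, ← map_inv, ← map_mul] at h1
    constructor
    · intro hx
      exact (key _).1 (h1.1 ((key x).2 hx))
    · intro hx
      exact (key x).1 (h1.2 ((key _).2 hx))
  · intro h
    rw [Subgroup.mem_normalizer_iff] at h ⊢
    intro x
    constructor
    · rintro ⟨y, hy, rfl⟩
      exact ⟨k * y * k⁻¹, (h y).1 hy, by simp⟩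
    · rintro ⟨y, hy, hy2⟩
      refine ⟨k⁻¹ * y * k, ?_, ?_⟩
      · exact (h _).2 (by
          have : k * (k⁻¹ * y * k) * k⁻¹ = y := by group
          rw [this]
          exact hy)
      · rw [map_mul, map_mul, map_inv, hy2]
        group

theorem OMB_al {K Γ : Type} [Group K] [Group Γ] (i : K →* Γ) (hi : Function.Injective i)
    (P : Subgroup K) (α : MulAut K) (m : Γ) (h : ∀ k, i (α k) = m * i k * m⁻¹) :
    m ∈ nz (P.map i) ↔ am α P = P := by
  have key := OMB_key i hi P
  constructor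
  · intro hm
    rw [Subgroup.mem_normalizer_iff] at hm
    have h1 : ∀ k : K, k ∈ P ↔ α k ∈ P := by
      intro k
      have h2 := hm (i k)
      rw [← h] at h2
      exact ⟨fun hk => (key _).1 (h2.1 ((key _).2 hk)), fun hk => (key _).1 (h2.2 ((key _).2 hk))⟩
    ext k
    rw [mem_am]
    constructor
    · intro hk
      have h3 := (h1 _).1 hk
      rwa [MulAut.apply_inv_self] at h3
    · intro hk
      refine (h1 _).2 ?_
      rwa [MulAut.apply_inv_self]
  · intro hP
    rw [Subgroup.mem_normalizer_iff]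
    have h1 : ∀ k : K, k ∈ P ↔ α k ∈ P := by
      intro k
      have h2 : α k ∈ am α P ↔ α k ∈ P := by rw [hP]
      rw [mem_am, MulAut.inv_apply_self] at h2
      exact h2
    intro x
    constructor
    · rintro ⟨y, hy, rfl⟩
      exact ⟨α y, (h1 y).1 hy, h y⟩
    · rintro ⟨y, hy, hy2⟩
      refine ⟨α⁻¹ y, ?_, ?_⟩
      · refine (h1 _).2 ?_
        rwa [MulAut.apply_inv_self]
      · have h4 : i (α (α⁻¹ y)) = m * x * m⁻¹ := by
          rw [MulAut.apply_inv_self]
          exact hy2
        rw [h] at h4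
        exact mul_left_cancel (mul_right_cancel h4)

theorem OMB_mem {Γ : Type} [Group Γ] (C : Finset (Subgroup Γ)) (x : Γ) :
    x ∈ nrm C ↔ ∀ P ∈ C, x ∈ nz P := by
  unfold nrm
  simp only [Subgroup.mem_iInf]

theorem OMB : OMB_stmt := by
  classical
  intro p _ G E A _ _ _ _ _ X
  have hi := X.inc_injective
  have hinj : Function.Injective (Subgroup.map X.inc) := Subgroup.map_injective hi
  have key := OMB_key X.inc hi
  have hle : ∀ P Q : Subgroup G, P.map X.inc ≤ Q.map X.inc ↔ P ≤ Q := by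
    intro P Q
    constructor
    · intro h x hx
      exact (key Q x).1 (h ((key P x).2 hx))
    · intro h
      exact Subgroup.map_mono h
  have hpg : ∀ P : Subgroup G, IsPGroup p (P.map X.inc : Subgroup E) ↔ IsPGroup p P := by
    intro P
    have e := P.equivMapOfInjective X.inc hi
    exact ⟨fun h => h.of_equiv e.symm, fun h => h.of_equiv e⟩
  have hnm : ∀ Q R : Subgroup G, R.map X.inc ≤ nz (Q.map X.inc) ↔ R ≤ nz Q := by
    intro Q R
    constructor
    · intro h x hx
      exact (OMB_nz X.inc hi Q x).1 (h ((key R x).2 hx))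
    · rintro h _ ⟨x, hx, rfl⟩
      exact (OMB_nz X.inc hi Q x).2 (h hx)
  have hmem : ∀ (C : Finset (Subgroup G)) (Y : Subgroup E), Y ∈ cmap X.inc C ↔
      ∃ Q ∈ C, Q.map X.inc = Y := by
    intro C Y
    unfold cmap
    rw [Finset.mem_image]
  have hfw : ∀ C : Finset (Subgroup G), NCh p ⊤ ⊥ C ↔ NCh p X.inc.range ⊥ (cmap X.inc C) := by
    intro C
    constructor
    · intro h
      refine ⟨⟨?_, ?_, ?_, ?_, ?_⟩, ?_⟩
      · intro Y hY Z hZ hne
        rw [Finset.mem_coe, hmem] at hY hZ
        obtain ⟨Q, hQ, rfl⟩ := hY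
        obtain ⟨S, hS, rfl⟩ := hZ
        rcases h.ch.chain hQ hS (fun h3 => hne (by rw [h3])) with h4 | h4
        · exact Or.inl ((hle Q S).2 h4)
        · exact Or.inr ((hle S Q).2 h4)
      · rw [hmem]
        exact ⟨⊥, h.ch.mem, Subgroup.map_bot _⟩
      · intro Y _
        exact bot_le
      · intro Y hY
        rw [hmem] at hY
        obtain ⟨Q, _, rfl⟩ := hY
        rintro _ ⟨x, _, rfl⟩
        exact ⟨x, rfl⟩
      · intro Y hY
        rw [hmem] at hY
        obtain ⟨Q, hQ, rfl⟩ := hY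
        exact (hpg Q).2 (h.ch.pg Q hQ)
      · intro Y hY Z hZ hYZ
        rw [hmem] at hY hZ
        obtain ⟨Q, hQ, rfl⟩ := hY
        obtain ⟨S, hS, rfl⟩ := hZ
        exact (hnm Q S).2 (h.nm Q hQ S hS ((hle Q S).1 hYZ))
    · intro h
      have hin : ∀ Q ∈ C, Q.map X.inc ∈ cmap X.inc C := fun Q hQ => (hmem C _).2 ⟨Q, hQ, rfl⟩
      refine ⟨⟨?_, ?_, ?_, ?_, ?_⟩, ?_⟩
      · intro Q hQ S hS hne
        rcases h.ch.chain (hin Q hQ) (hin S hS) (fun h3 => hne (hinj h3)) with h4 | h4
        · exact Or.inl ((hle Q S).1 h4)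
        · exact Or.inr ((hle S Q).1 h4)
      · have h1 := h.ch.mem
        rw [hmem] at h1
        obtain ⟨Q, hQ, h2⟩ := h1
        have h3 : Q = ⊥ := hinj (h2.trans (Subgroup.map_bot _).symm)
        rw [← h3]
        exact hQ
      · intro Q _
        exact bot_le
      · intro Q _
        exact le_top
      · intro Q hQ
        exact (hpg Q).1 (h.ch.pg _ (hin Q hQ))
      · intro Q hQ S hS hQS
        exact (hnm Q S).1 (h.nm _ (hin Q hQ) _ (hin S hS) ((hle Q S).2 hQS))
  refine ⟨⟨?_, ?_, ?_⟩, ?_⟩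
  · intro C h
    exact (hfw C).1 h
  · intro C _ C' _ h
    exact Finset.image_injective hinj h
  · intro D h
    have h : NCh p X.inc.range ⊥ D := h
    have h1 : cmap X.inc (D.image (Subgroup.comap X.inc)) = D := by
      apply Finset.ext
      intro Y
      rw [hmem]
      have h2 : ∀ Z ∈ D, (Z.comap X.inc).map X.inc = Z := by
        intro Z hZ
        rw [Subgroup.map_comap_eq]
        exact inf_eq_right.2 (h.ch.le Z hZ)
      constructor
      · rintro ⟨Q, hQ, rfl⟩
        rw [Finset.mem_image] at hQ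
        obtain ⟨Z, hZ, rfl⟩ := hQ
        rw [h2 Z hZ]
        exact hZ
      · intro hY
        exact ⟨Y.comap X.inc, Finset.mem_image_of_mem _ hY, h2 Y hY⟩
    refine ⟨D.image (Subgroup.comap X.inc), ?_, h1⟩
    change NCh p ⊤ ⊥ (D.image (Subgroup.comap X.inc))
    rw [hfw, h1]
    exact h
  · intro C
    have hmap : ∀ x : E, x ∈ nrm (cmap X.inc C) ↔ ∀ P ∈ C, x ∈ nz (P.map X.inc) := by
      intro x
      rw [OMB_mem]
      constructor
      · intro h1 P hP
        exact h1 _ ((hmem C _).2 ⟨P, hP, rfl⟩)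
      · intro h1 Y hY
        rw [hmem] at hY
        obtain ⟨Q, hQ, rfl⟩ := hY
        exact h1 Q hQ
    refine ⟨Finset.card_image_of_injective _ hinj, ?_, ?_⟩
    · ext x
      rw [Subgroup.mem_comap, hmap, OMB_mem]
      constructor
      · intro h1 P hP
        exact (OMB_nz X.inc hi P x).1 (h1 P hP)
      · intro h1 P hP
        exact (OMB_nz X.inc hi P x).2 (h1 P hP)
    · intro e
      rw [hmap]
      unfold FxC
      constructor
      · intro h1 P hP
        exact (OMB_al X.inc hi P (X.act e) e (X.act_spec e)).1 (h1 P hP)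
      · intro h1 P hP
        exact (OMB_al X.inc hi P (X.act e) e (X.act_spec e)).2 (h1 P hP)

end Pool.Agent.FI4E
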